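import Pool.Agent.H74.TF.Stm2

/-! Part GAR of the project TF: the product of the Vandermonde determinants of the rows is an
eigenvector of the Jucys-Murphy elements, by Lagrange interpolation. -/

set_option autoImplicit false

namespace Pool.Agent.H4.TF

open Finset Equiv Pool.Agent.H74.TF

section

variable {α K : Type} [Fintype α] [DecidableEq α] [Field K]

/-- the value of the row product -/
noncomputable def gD (row col : α → ℕ) (v : α → K) : K :=
  ∏ a : α, ∏ b : α with row b = row a ∧ col a < col b, (v b - v a)

/-- one factor -/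
noncomputable def gu (row col : α → ℕ) (v : α → K) (a b : α) : K :=
  if row b = row a ∧ col a < col b then v b - v a else 1

/-- two factors -/
noncomputable def gW (row col : α → ℕ) (a x : α) (s t : K) : K :=
  (if row x = row a ∧ col a < col x then t - s else 1) *
    (if row a = row x ∧ col x < col a then s - t else 1)

theorem gD_eq (row col : α → ℕ) (v : α → K) : gD row col v = ∏ a, ∏ b, gu row col v a b := by
  unfold gD gu
  refine prod_congr rfl fun a _ => ?_
  rw [prod_filter]

theorem gsplit (F : α → K) {x y : α} (h : x ≠ y) :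
    ∏ a, F a = F x * F y * ∏ a with a ≠ x ∧ a ≠ y, F a := by
  rw [← mul_prod_erase univ F (mem_univ x), ← mul_prod_erase (univ.erase x) F
    (mem_erase.2 ⟨h.symm, mem_univ y⟩), mul_assoc]
  congr 2
  refine prod_congr ?_ fun _ _ => rfl
  ext a
  simp [and_comm]

theorem gsplit2 (u : α → α → K) {x y : α} (h : x ≠ y) :
    ∏ a, ∏ b, u a b = (∏ a with a ≠ x ∧ a ≠ y, ∏ b with b ≠ x ∧ b ≠ y, u a b) *
      (∏ a with a ≠ x ∧ a ≠ y, (u a x * u x a) * (u a y * u y a)) *
      (u x x * u y y * (u y x * u x y)) := by
  rw [gsplit (fun a => ∏ b, u a b) h]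
  simp only [gsplit _ h, prod_mul_distrib]
  ring

theorem gW_one {row col : α → ℕ} {a x : α} (h : row a ≠ row x) (s t : K) :
    gW row col a x s t = 1 := by
  unfold gW
  rw [if_neg (fun h' => h h'.1.symm), if_neg (fun h' => h h'.1), one_mul]

theorem gW_row {row col : α → ℕ} {a x : α} (h : row a = row x) (hc : col a ≠ col x) (s t : K) :
    gW row col a x s t = (if col a < col x then 1 else -1) * (t - s) := by
  unfold gW
  rcases lt_or_gt_of_ne hc with h' | h'
  · rw [if_pos ⟨h.symm, h'⟩, if_neg (fun h'' => absurd h''.2 (not_lt.2 h'.le)), if_pos h']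
    ring
  · rw [if_neg (fun h'' => absurd h''.2 (not_lt.2 h'.le)), if_pos ⟨h, h'⟩,
      if_neg (not_lt.2 h'.le)]
    ring

/-- decomposition at two points -/
theorem gD_split (row col : α → ℕ) (v : α → K) {x y : α} (h : x ≠ y) :
    gD row col v = (∏ a with a ≠ x ∧ a ≠ y, ∏ b with b ≠ x ∧ b ≠ y, gu row col v a b) *
      (∏ a with a ≠ x ∧ a ≠ y, gW row col a x (v a) (v x) * gW row col a y (v a) (v y)) *
      gW row col y x (v y) (v x) := by
  rw [gD_eq, gsplit2 _ h]
  have e1 : gu row col v x x = 1 := if_neg fun h => lt_irrefl _ h.2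
  have e2 : gu row col v y y = 1 := if_neg fun h => lt_irrefl _ h.2
  rw [e1, e2, one_mul, one_mul]
  rfl

theorem gD_swap (row col : α → ℕ) (v : α → K) {x y : α} (h : x ≠ y) :
    gD row col (v ∘ swap y x) =
      (∏ a with a ≠ x ∧ a ≠ y, ∏ b with b ≠ x ∧ b ≠ y, gu row col v a b) *
      (∏ a with a ≠ x ∧ a ≠ y, gW row col a x (v a) (v y) * gW row col a y (v a) (v x)) *
      gW row col y x (v x) (v y) := by
  have hv : ∀ a, a ≠ x → a ≠ y → (v ∘ swap y x) a = v a := fun a h1 h2 => by
    rw [Function.comp_apply, swap_apply_of_ne_of_ne h2 h1]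
  have hx : (v ∘ swap y x) x = v y := by rw [Function.comp_apply, swap_apply_right]
  have hy : (v ∘ swap y x) y = v x := by rw [Function.comp_apply, swap_apply_left]
  rw [gD_split row col _ h, hx, hy]
  congr 2
  · refine prod_congr rfl fun a ha => prod_congr rfl fun b hb => ?_
    rw [mem_filter] at ha hb
    unfold gu
    rw [hv a ha.2.1 ha.2.2, hv b hb.2.1 hb.2.2]
  · refine prod_congr rfl fun a ha => ?_
    rw [mem_filter] at ha
    rw [hv a ha.2.1 ha.2.2]

/-- transposition in a row -/
theorem gD_same {row col : α → ℕ} (inj : ∀ x y, row x = row y → col x = col y → x = y)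
    (v : α → K) {x y : α} (h : y ≠ x) (hr : row y = row x) :
    gD row col (v ∘ swap y x) = - gD row col v := by
  have hc : ∀ {a b : α}, a ≠ b → row a = row b → col a ≠ col b := fun hab hr' hc' =>
    hab (inj _ _ hr' hc')
  rw [gD_swap row col v h.symm, gD_split row col v h.symm, gW_row hr (hc h hr),
    gW_row hr (hc h hr)]
  have : ∏ a with a ≠ x ∧ a ≠ y, gW row col a x (v a) (v y) * gW row col a y (v a) (v x) =
      ∏ a with a ≠ x ∧ a ≠ y, gW row col a x (v a) (v x) * gW row col a y (v a) (v y) := by
    refine prod_congr rfl fun a ha => ?_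
    rw [mem_filter] at ha
    by_cases h1 : row a = row x
    · have h2 : row a = row y := h1.trans hr.symm
      rw [gW_row h1 (hc ha.2.1 h1), gW_row h1 (hc ha.2.1 h1), gW_row h2 (hc ha.2.2 h2),
        gW_row h2 (hc ha.2.2 h2)]
      ring
    · have h2 : row a ≠ row y := fun h' => h1 (h'.trans hr)
      rw [gW_one h1, gW_one h1, gW_one h2, gW_one h2]
  rw [this]
  ring

/-- transposition of two points in different rows -/
theorem gD_diff {row col : α → ℕ} (inj : ∀ x y, row x = row y → col x = col y → x = y)
    (v : α → K) {x y : α} (hr : row y ≠ row x) :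
    gD row col (v ∘ swap y x) * ((∏ a with row a = row x ∧ a ≠ x, (v x - v a)) *
        ∏ b with row b = row y ∧ b ≠ y, (v y - v b)) =
      gD row col v * ((∏ a with row a = row x ∧ a ≠ x, (v y - v a)) *
        ∏ b with row b = row y ∧ b ≠ y, (v x - v b)) := by
  have h : x ≠ y := fun h => hr (by rw [h])
  have hc : ∀ {a b : α}, a ≠ b → row a = row b → col a ≠ col b := fun hab hr' hc' =>
    hab (inj _ _ hr' hc')
  have hP : ∀ t : K, ∏ a with row a = row x ∧ a ≠ x, (t - v a) =
      ∏ a with a ≠ x ∧ a ≠ y, (if row a = row x then t - v a else 1) := by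
    intro t
    rw [← prod_filter, filter_filter]
    refine prod_congr ?_ fun _ _ => rfl
    ext a
    simp only [mem_filter, mem_univ, true_and]
    constructor
    · rintro ⟨h1, h2⟩
      exact ⟨⟨h2, fun h3 => hr (by rw [← h3, h1])⟩, h1⟩
    · rintro ⟨⟨h2, _⟩, h1⟩
      exact ⟨h1, h2⟩
  have hQ : ∀ t : K, ∏ a with row a = row y ∧ a ≠ y, (t - v a) =
      ∏ a with a ≠ x ∧ a ≠ y, (if row a = row y then t - v a else 1) := by
    intro t
    rw [← prod_filter, filter_filter]
    refine prod_congr ?_ fun _ _ => rfl
    ext a
    simp only [mem_filter, mem_univ, true_and]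
    constructor
    · rintro ⟨h1, h2⟩
      exact ⟨⟨fun h3 => hr (by rw [← h3, h1]), h2⟩, h1⟩
    · rintro ⟨⟨_, h2⟩, h1⟩
      exact ⟨h1, h2⟩
  have key : (∏ a with a ≠ x ∧ a ≠ y, gW row col a x (v a) (v y) * gW row col a y (v a) (v x)) *
      ((∏ a with a ≠ x ∧ a ≠ y, (if row a = row x then v x - v a else 1)) *
        ∏ a with a ≠ x ∧ a ≠ y, (if row a = row y then v y - v a else 1)) =
      (∏ a with a ≠ x ∧ a ≠ y, gW row col a x (v a) (v x) * gW row col a y (v a) (v y)) *
      ((∏ a with a ≠ x ∧ a ≠ y, (if row a = row x then v y - v a else 1)) *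
        ∏ a with a ≠ x ∧ a ≠ y, (if row a = row y then v x - v a else 1)) := by
    simp only [← prod_mul_distrib]
    refine prod_congr rfl fun a ha => ?_
    rw [mem_filter] at ha
    by_cases h1 : row a = row x
    · have h2 : row a ≠ row y := fun h' => hr (h'.symm.trans h1)
      rw [gW_row h1 (hc ha.2.1 h1), gW_row h1 (hc ha.2.1 h1), gW_one h2, gW_one h2, if_pos h1,
        if_neg h2, if_pos h1, if_neg h2]
      ring
    · by_cases h2 : row a = row y
      · rw [gW_row h2 (hc ha.2.2 h2), gW_row h2 (hc ha.2.2 h2), gW_one h1, gW_one h1, if_neg h1,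
          if_pos h2, if_neg h1, if_pos h2]
        ring
      · rw [gW_one h1, gW_one h1, gW_one h2, gW_one h2, if_neg h1, if_neg h2, if_neg h1,
          if_neg h2]
  rw [hP, hP, hQ, hQ, gD_swap row col v h, gD_split row col v h, gW_one hr, gW_one hr, mul_one,
    mul_one, mul_assoc, mul_assoc, key]

/-- the sum over a row above -/
theorem gD_row {row col rk : α → ℕ} (hR : RowR row col rk) {v : α → K}
    (hv : Function.Injective v) (x : α) {r : ℕ} (hr : r < row x) :
    ∑ y with row y = r, gD row col (v ∘ swap y x) = gD row col v := by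
  set P : Polynomial K := ∏ a with row a = row x ∧ a ≠ x, (Polynomial.X - Polynomial.C (v a))
    with hP
  have hPe : ∀ t, P.eval t = ∏ a with row a = row x ∧ a ≠ x, (t - v a) := by
    intro t
    rw [hP, Polynomial.eval_prod]
    simp
  have hPx : P.eval (v x) ≠ 0 := by
    rw [hPe, prod_ne_zero_iff]
    intro a ha
    rw [mem_filter] at ha
    exact sub_ne_zero.2 fun h => ha.2.2 (hv h.symm)
  have hcard : (univ.filter fun a => row a = row x).card ≤ (univ.filter fun a => row a = r).card := by
    calc (univ.filter fun a => row a = row x).card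
        = ((univ.filter fun a => row a = row x).image col).card := by
          rw [card_image_of_injOn]
          intro a ha b hb hab
          simp only [coe_filter, mem_univ, true_and, Set.mem_ofPred_eq] at ha hb
          exact hR.inj a b (ha.trans hb.symm) hab
      _ ≤ ((univ.filter fun a => row a = r).image col).card := by
          refine card_le_card fun c hc => ?_
          rw [mem_image] at hc ⊢
          obtain ⟨a, ha, rfl⟩ := hc
          rw [mem_filter] at ha
          obtain ⟨b, hb, hb'⟩ := hR.down a r (col a) (by rw [ha.2]; exact hr.le) le_rfl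
          exact ⟨b, by simp [hb], hb'⟩
      _ ≤ _ := card_image_le
  have hdeg : P.degree < ((univ.filter fun a => row a = r).card : WithBot ℕ) := by
    have h1 : P.natDegree = (univ.filter fun a => row a = row x ∧ a ≠ x).card := by
      rw [hP, Polynomial.natDegree_prod_of_monic _ _ fun a _ => Polynomial.monic_X_sub_C _]
      simp
    have h2 : (univ.filter fun a => row a = row x ∧ a ≠ x).card <
        (univ.filter fun a => row a = row x).card := by
      refine card_lt_card ⟨fun a ha => ?_, fun h => ?_⟩
      · rw [mem_filter] at ha ⊢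
        exact ⟨ha.1, ha.2.1⟩
      · have := h (mem_filter.2 ⟨mem_univ x, rfl⟩)
        rw [mem_filter] at this
        exact this.2.2 rfl
    refine lt_of_le_of_lt Polynomial.degree_le_natDegree ?_
    rw [h1]
    exact_mod_cast h2.trans_le hcard
  have hL := Lagrange.eq_interpolate (s := univ.filter fun a => row a = r) (v := v)
    (hv.injOn) hdeg
  have hL2 := congrArg (fun p => Polynomial.eval (v x) p) hL
  simp only [Lagrange.interpolate_apply, Polynomial.eval_finsetSum, Polynomial.eval_mul,
    Polynomial.eval_C] at hL2
  have key : ∀ y ∈ univ.filter (fun a => row a = r), gD row col (v ∘ swap y x) * P.eval (v x) =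
      gD row col v * (P.eval (v y) *
        (Lagrange.basis (univ.filter fun a => row a = r) v y).eval (v x)) := by
    intro y hy
    rw [mem_filter] at hy
    have hyr : row y ≠ row x := by rw [hy.2]; exact hr.ne
    have h1 := gD_diff hR.inj v hyr
    have hQ : ∏ b with row b = row y ∧ b ≠ y, (v y - v b) ≠ 0 := by
      rw [prod_ne_zero_iff]
      intro a ha
      rw [mem_filter] at ha
      exact sub_ne_zero.2 fun h => ha.2.2 (hv h.symm)
    have hB : (Lagrange.basis (univ.filter fun a => row a = r) v y).eval (v x) *
        ∏ b with row b = row y ∧ b ≠ y, (v y - v b) = ∏ b with row b = row y ∧ b ≠ y, (v x - v b) := by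
      unfold Lagrange.basis Lagrange.basisDivisor
      rw [Polynomial.eval_prod]
      have hset : (univ.filter fun a => row a = r).erase y =
          univ.filter fun b => row b = row y ∧ b ≠ y := by
        ext b
        simp only [mem_erase, mem_filter, mem_univ, true_and, hy.2]
        tauto
      rw [hset, ← prod_mul_distrib]
      refine prod_congr rfl fun b hb => ?_
      rw [mem_filter] at hb
      have hne : v y - v b ≠ 0 := sub_ne_zero.2 fun h => hb.2.2 (hv h.symm)
      simp only [Polynomial.eval_mul, Polynomial.eval_C, Polynomial.eval_sub, Polynomial.eval_X]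
      field_simp
    apply mul_right_cancel₀ hQ
    rw [mul_assoc, hPe (v x), h1, ← hPe (v y), ← hB]
    ring
  apply mul_right_cancel₀ hPx
  rw [sum_mul, sum_congr rfl key, ← mul_sum]
  congr 1
  exact hL2.symm

/-- the eigenvalue equation for values -/
theorem gD_main {row col rk : α → ℕ} (hR : RowR row col rk) {v : α → K}
    (hv : Function.Injective v) (x : α) :
    ∑ y with rk y < rk x, gD row col (v ∘ swap y x) = ((row x : K) - (col x : K)) * gD row col v := by
  have h1 : (univ.filter fun y => rk y < rk x) = (univ.filter fun y => row y < row x) ∪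
      univ.filter fun y => row y = row x ∧ col y < col x := by
    ext y
    simp only [mem_filter, mem_union, mem_univ, true_and, hR.ord]
  have hd : Disjoint (univ.filter fun y => row y < row x)
      (univ.filter fun y => row y = row x ∧ col y < col x) := by
    rw [disjoint_left]
    intro y hy hy'
    rw [mem_filter] at hy hy'
    exact hy.2.ne hy'.2.1
  rw [h1, sum_union hd]
  have e1 : ∑ y with row y < row x, gD row col (v ∘ swap y x) = (row x : K) * gD row col v := by
    rw [← sum_fiberwise_of_maps_to (s := univ.filter fun y => row y < row x) (t := range (row x))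
      (g := row) fun y hy => by
        rw [mem_filter] at hy
        exact mem_range.2 hy.2]
    have : ∀ r ∈ range (row x), ∑ y ∈ univ.filter (fun y => row y < row x) with row y = r,
        gD row col (v ∘ swap y x) = gD row col v := by
      intro r hr
      rw [mem_range] at hr
      rw [← gD_row hR hv x hr]
      refine sum_congr ?_ fun _ _ => rfl
      ext y
      simp only [mem_filter, mem_univ, true_and]
      constructor
      · exact fun h => h.2
      · exact fun h => ⟨by rw [h]; exact hr, h⟩
    rw [sum_congr rfl this, sum_const, card_range, nsmul_eq_mul]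
  have e2 : ∑ y with row y = row x ∧ col y < col x, gD row col (v ∘ swap y x) =
      - ((col x : K) * gD row col v) := by
    have : ∀ y ∈ univ.filter (fun y => row y = row x ∧ col y < col x),
        gD row col (v ∘ swap y x) = - gD row col v := by
      intro y hy
      rw [mem_filter] at hy
      exact gD_same hR.inj v (fun h => by rw [h] at hy; exact lt_irrefl _ hy.2.2) hy.2.1
    rw [sum_congr rfl this, sum_const, nsmul_eq_mul]
    have hc : (univ.filter fun y => row y = row x ∧ col y < col x).card = col x := by
      have hi : ((univ.filter fun y => row y = row x ∧ col y < col x).image col) =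
          range (col x) := by
        ext c
        rw [mem_image, mem_range]
        constructor
        · rintro ⟨y, hy, rfl⟩
          rw [mem_filter] at hy
          exact hy.2.2
        · intro hc
          obtain ⟨y, hy, hy'⟩ := hR.down x (row x) c le_rfl hc.le
          exact ⟨y, by simp [hy, hy', hc], hy'⟩
      have hi' := congrArg Finset.card hi
      rw [card_range, card_image_of_injOn] at hi'
      · exact hi'
      · intro a ha b hb hab
        simp only [coe_filter, mem_univ, true_and, Set.mem_ofPred_eq] at ha hb
        exact hR.inj a b (ha.1.trans hb.1.symm) hab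
    rw [hc]
    ring
  rw [e1, e2]
  ring

end

open MvPolynomial in
/-- part GAR -/
theorem t_GAR : C_GAR := by
  intro α _ _ row col rk hR x
  let K := FractionRing (MvPolynomial α ℚ)
  let v : α → K := fun a => algebraMap (MvPolynomial α ℚ) K (X a)
  have hinj : Function.Injective (algebraMap (MvPolynomial α ℚ) K) :=
    IsFractionRing.injective (MvPolynomial α ℚ) K
  have hv : Function.Injective v := fun a b h => X_injective (hinj h)
  have hD : ∀ g : Perm α, algebraMap (MvPolynomial α ℚ) K (rename g (Dlt row col)) =
      gD row col (v ∘ g) := by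
    intro g
    unfold Dlt gD
    simp only [map_prod, map_sub, rename_X]
    rfl
  have hD1 : algebraMap (MvPolynomial α ℚ) K (Dlt row col) = gD row col v := by
    have := hD 1
    simpa using this
  apply hinj
  unfold JM
  rw [LinearMap.sum_apply, map_sum]
  have h1 : ∀ y ∈ univ.filter (fun y => rk y < rk x), algebraMap (MvPolynomial α ℚ) K
      ((pol α (swap y x)) (Dlt row col)) = - gD row col (v ∘ swap y x) := by
    intro y hy
    rw [mem_filter] at hy
    have hne : y ≠ x := fun h => by rw [h] at hy; exact lt_irrefl _ hy.2
    have : (pol α (swap y x)) (Dlt row col) = - rename (swap y x) (Dlt row col) := by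
      show (((Perm.sign (swap y x) : ℤˣ) : ℤ) • (rename (swap y x) : MvPolynomial α ℚ →ₐ[ℚ] _).toLinearMap)
        (Dlt row col) = _
      rw [Perm.sign_swap hne]
      simp
    rw [this, map_neg, hD]
  rw [sum_congr rfl h1, sum_neg_distrib, gD_main hR hv x, map_zsmul, hD1, zsmul_eq_mul]
  push_cast
  ring

end Pool.Agent.H4.TF
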