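import Pool.Agent.H74.TF.Stm2

/-! Part PH of the project TF: symmetric polynomials in the Jucys-Murphy elements of the first
points of the pairs, and the class sums, act on `w0` by scalars. -/

set_option autoImplicit false

namespace Pool.Agent.H4.TF

open Finset Equiv MulOpposite Pool.Agent.H74.TF

section algebra

variable {m : ℕ}

/-- the group algebra -/
abbrev pA (m : ℕ) := MonoidAlgebra ℚ (Perm (Fin m × Bool))

/-- group elements -/
noncomputable abbrev po (g : Perm (Fin m × Bool)) : pA m := MonoidAlgebra.of ℚ _ g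

/-- the Jucys-Murphy elements -/
noncomputable def pJ (x : Fin m × Bool) : pA m := ∑ y with rk0 y < rk0 x, po (swap y x)

/-- the sum of the elements of the wreath product -/
noncomputable def pE (m : ℕ) [DecidablePred fun a : Perm (Fin m × Bool) => wr a] : pA m :=
  ∑ a with wr a, po a

theorem rk0_inj : Function.Injective (rk0 (m := m)) := by
  rintro ⟨i, b⟩ ⟨i', b'⟩ h
  unfold rk0 at h
  simp only at h
  have hb : b.toNat ≤ 1 := Bool.toNat_le b
  have hb' : b'.toNat ≤ 1 := Bool.toNat_le b'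
  have h1 : (i : ℕ) = i' := by omega
  have h2 : b.toNat = b'.toNat := by omega
  have h3 : b = b' := by
    cases b <;> cases b' <;> simp_all
  rw [Fin.ext h1, h3]

/-- the regular representation -/
noncomputable def pR (m : ℕ) : Representation ℚ (Perm (Fin m × Bool)) (pA m) :=
  ((Algebra.lmul ℚ (pA m) : pA m →ₐ[ℚ] _) : pA m →* Module.End ℚ (pA m)).comp
    (MonoidAlgebra.of ℚ (Perm (Fin m × Bool)))

theorem pR_apply (g : Perm (Fin m × Bool)) (z : pA m) : pR m g z = po g * z := rfl

theorem pR_JM (x : Fin m × Bool) (z : pA m) : JM (pR m) rk0 x z = pJ x * z := by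
  unfold JM pJ
  rw [LinearMap.sum_apply, sum_mul]
  rfl

theorem pJ_comm (hCOM : C_COM) (x y : Fin m × Bool) : Commute (pJ x) (pJ y) := by
  have h := (hCOM ℚ (Fin m × Bool) (pA m) (pR m) rk0 rk0_inj).1 x y
  have h1 := LinearMap.congr_fun h.eq (1 : pA m)
  rw [Module.End.mul_apply, Module.End.mul_apply, pR_JM, pR_JM, pR_JM, pR_JM, mul_one,
    mul_one] at h1
  exact h1

end algebra

section theta

variable {m : ℕ}

/-- functions on the symmetric group as elements of the group algebra -/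
noncomputable def pT (m : ℕ) : (Perm (Pt m 0) → ℚ) →ₗ[ℚ] pA m where
  toFun ψ := ∑ a : Perm (Fin m × Bool), ψ (iot a 1) • po a
  map_add' ψ ψ' := by
    simp only [Pi.add_apply, add_smul, sum_add_distrib]
  map_smul' c ψ := by
    simp only [Pi.smul_apply, smul_eq_mul, mul_smul, smul_sum, RingHom.id_apply]

theorem pT_apply (ψ : Perm (Pt m 0) → ℚ) : pT m ψ = ∑ a, ψ (iot a 1) • po a := rfl

theorem iot_mul (a b : Perm (Fin m × Bool)) : (iot (a * b) 1 : Perm (Pt m 0)) = iot a 1 * iot b 1 := by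
  show Equiv.Perm.sumCongr _ _ = Equiv.Perm.sumCongr _ _ * Equiv.Perm.sumCongr _ _
  rw [Equiv.Perm.sumCongr_mul, one_mul]

theorem iot_inv (a : Perm (Fin m × Bool)) : (iot a 1 : Perm (Pt m 0))⁻¹ = iot a⁻¹ 1 := by
  show (Equiv.Perm.sumCongr _ _)⁻¹ = Equiv.Perm.sumCongr _ _
  rw [Equiv.Perm.sumCongr_inv, inv_one]

theorem pT_LL (b : Perm (Fin m × Bool)) (ψ : Perm (Pt m 0) → ℚ) :
    pT m (LL ℚ m 0 (iot b 1) ψ) = po b * pT m ψ := by
  rw [pT_apply, pT_apply, mul_sum, ← Equiv.sum_comp (Equiv.mulLeft b)]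
  refine sum_congr rfl fun a _ => ?_
  have h1 : LL ℚ m 0 (iot b 1) ψ (iot (b * a) 1) = ψ (iot a 1) := by
    show ψ ((iot b 1)⁻¹ * iot (b * a) 1) = _
    rw [iot_mul, inv_mul_cancel_left]
  rw [Equiv.coe_mulLeft, h1, mul_smul_comm, ← map_mul]

theorem pT_JJ (x : Fin m × Bool) (ψ : Perm (Pt m 0) → ℚ) :
    pT m (JJ ℚ m 0 (Sum.inl x) ψ) = pJ x * pT m ψ := by
  have h1 : JJ ℚ m 0 (Sum.inl x) ψ = ∑ y with rk0 y < rk0 x, LL ℚ m 0 (iot (swap y x) 1) ψ := by
    show (∑ y : Pt m 0 with rk y < rk (Sum.inl x), LL ℚ m 0 (swap y (Sum.inl x))) ψ = _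
    rw [LinearMap.sum_apply, sum_filter, Fintype.sum_sum_type, sum_filter]
    have : ∑ r : Fin 0, (if rk (Sum.inr r : Pt m 0) < rk (Sum.inl x : Pt m 0) then
        (LL ℚ m 0 (swap (Sum.inr r) (Sum.inl x))) ψ else 0) = 0 := by simp
    rw [this, add_zero]
    refine sum_congr rfl fun y _ => ?_
    have h2 : (rk (Sum.inl y : Pt m 0) < rk (Sum.inl x : Pt m 0)) = (rk0 y < rk0 x) := rfl
    have h3 : (iot (swap y x) 1 : Perm (Pt m 0)) = swap (Sum.inl y) (Sum.inl x) :=
      Equiv.Perm.sumCongr_swap_one y x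
    rw [h3]
    simp only [h2]
  rw [h1, map_sum, pJ, sum_mul]
  exact sum_congr rfl fun y _ => pT_LL _ _

open MvPolynomial in
theorem pT_ev (F : MvPolynomial (Fin m) ℚ →ₐ[ℚ] pA m) (hF : ∀ i, F (X i) = pJ (i, false))
    (evs : MvPolynomial (Fin m ⊕ Fin 0) ℚ →ₐ[ℚ] Module.End ℚ (Perm (Pt m 0) → ℚ)) (hevs : IsEv evs)
    (f : MvPolynomial (Fin m) ℚ) : ∀ ψ, pT m (evs (rename Sum.inl f) ψ) = F f * pT m ψ := by
  induction f using MvPolynomial.induction_on with
  | C a =>
    intro ψ
    rw [rename_C, ← algebraMap_eq, ← algebraMap_eq, AlgHom.commutes, AlgHom.commutes,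
      Module.algebraMap_end_apply, map_smul, Algebra.smul_def]
  | add p q hp hq =>
    intro ψ
    rw [map_add, map_add, LinearMap.add_apply, map_add, hp, hq, map_add, add_mul]
  | mul_X p i hp =>
    intro ψ
    rw [map_mul, map_mul, Module.End.mul_apply, hp, rename_X, hevs]
    show F p * pT m (JJ ℚ m 0 (Sum.inl (i, false)) ψ) = _
    rw [pT_JJ, map_mul, hF, mul_assoc]

end theta

open Classical in
open MvPolynomial in
/-- symmetric polynomials in the Jucys-Murphy elements commute with the sum over the wreath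
product -/
theorem pE_comm (hEV : C_EV) (hCOM : C_COM) (hSYMM : C_SYMM) (hV0 : C_V0) (m : ℕ)
    (F : MvPolynomial (Fin m) ℚ →ₐ[ℚ] pA m) (hF : ∀ i, F (X i) = pJ (i, false))
    (f : MvPolynomial (Fin m) ℚ) (hf : f.IsSymmetric) : F f * pE m = pE m * F f := by
  have hrk : Function.Injective (rk : Pt m 0 → ℕ) := by
    rintro (x | r) (y | r') h
    · exact congrArg Sum.inl (rk0_inj h)
    · exact r'.elim0
    · exact r.elim0
    · exact r.elim0
  obtain ⟨evs, hevs⟩ := hEV ℚ (Module.End ℚ (Perm (Pt m 0) → ℚ)) (Fin m ⊕ Fin 0)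
    (fun c => JJ ℚ m 0 (ctr c)) (fun x y => (hCOM ℚ (Pt m 0) _ (LL ℚ m 0) rk hrk).1 _ _)
  have hbs : BiSym (rename (Sum.inl : Fin m → Fin m ⊕ Fin 0) f) := by
    intro π π'
    have e : (Sum.map π π' ∘ (Sum.inl : Fin m → Fin m ⊕ Fin 0)) = Sum.inl ∘ π := rfl
    rw [rename_rename, e, ← rename_rename, hf π]
  have hSE := hSYMM ℚ m 0 evs (fun a ha => by linarith) hevs _ hbs
  -- the image of v0
  have hv0 : pT m (v0 ℚ m 0) = pE m := by
    rw [pT_apply, pE, sum_filter]
    refine sum_congr rfl fun a _ => ?_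
    by_cases ha : wr a
    · rw [if_pos ha, (hV0.2.2 ℚ m 0).1 a 1 ha]
      simp
    · rw [if_neg ha, (hV0.2.2 ℚ m 0).2.1 (iot a 1) ?_, zero_smul]
      rintro ⟨a', b', ha', h⟩
      apply ha
      have : a = a' := by
        ext x : 1
        have := Equiv.congr_fun h (Sum.inl x)
        exact Sum.inl_injective this
      rw [this]
      exact ha'
  -- left invariance
  have hinv : ∀ h, wr h → po h * (F f * pE m) = F f * pE m := by
    intro h hh
    have hwi : wr h⁻¹ := by
      rw [hV0.1 m 0] at hh ⊢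
      intro i b
      have h1 := hh (h⁻¹ (i, b)).1 (h⁻¹ (i, b)).2
      rw [Prod.mk.eta, Equiv.Perm.inv_def, Equiv.apply_symm_apply] at h1
      rw [Equiv.Perm.inv_def, Equiv.symm_apply_eq]
      exact h1.symm
    rw [← hv0, ← pT_ev F hF evs hevs, ← pT_LL]
    congr 1
    funext g
    show (evs (rename Sum.inl f) (v0 ℚ m 0)) ((iot h 1)⁻¹ * g) = _
    rw [iot_inv]
    have := (hSE g h⁻¹ 1 hwi).2
    have hs : sg (1 : Perm (Fin 0)) = 1 := by simp [sg]
    rw [this, hs, one_smul]
  have h1 : pE m * (F f * pE m) = (Fintype.card {a : Perm (Fin m × Bool) // wr a} : ℚ) • (F f * pE m) := by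
    conv_lhs => rw [pE, sum_mul]
    rw [sum_congr rfl (g := fun _ => F f * pE m) fun a ha => by
      rw [mem_filter] at ha
      exact hinv a ha.2]
    rw [sum_const, Fintype.card_subtype, Nat.cast_smul_eq_nsmul]
  -- the anti-involution
  let τ : pA m →ₐ[ℚ] (pA m)ᵐᵒᵖ := MonoidAlgebra.lift ℚ _ _
    { toFun := fun g => MulOpposite.op (po g⁻¹)
      map_one' := by
        rw [inv_one, po, map_one]
        rfl
      map_mul' := fun g h => by
        rw [← MulOpposite.op_mul, mul_inv_rev, po, map_mul] }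
  have hτ : ∀ g, τ (po g) = MulOpposite.op (po g⁻¹) := fun g => MonoidAlgebra.lift_of _ _
  have hτJ : ∀ x, τ (pJ x) = MulOpposite.op (pJ x) := by
    intro x
    rw [pJ, map_sum, op_sum]
    refine sum_congr rfl fun y _ => ?_
    rw [hτ, swap_inv]
  have hτE : τ (pE m) = MulOpposite.op (pE m) := by
    rw [pE, map_sum, op_sum]
    simp only [hτ]
    refine sum_nbij (fun a => a⁻¹) ?_ ?_ ?_ ?_
    · intro a ha
      rw [mem_filter] at ha ⊢
      refine ⟨mem_univ _, ?_⟩
      have hh := ha.2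
      rw [hV0.1 m 0] at hh ⊢
      intro i b
      have h1 := hh (a⁻¹ (i, b)).1 (a⁻¹ (i, b)).2
      rw [Prod.mk.eta, Equiv.Perm.inv_def, Equiv.apply_symm_apply] at h1
      rw [Equiv.Perm.inv_def, Equiv.symm_apply_eq]
      exact h1.symm
    · intro a _ b _ h
      exact inv_injective h
    · intro a ha
      simp only [coe_filter, mem_univ, true_and, Set.mem_ofPred_eq, Set.mem_image] at ha ⊢
      refine ⟨a⁻¹, ?_, inv_inv a⟩
      have hh := ha
      rw [hV0.1 m 0] at hh ⊢
      intro i b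
      have h1 := hh (a⁻¹ (i, b)).1 (a⁻¹ (i, b)).2
      rw [Prod.mk.eta, Equiv.Perm.inv_def, Equiv.apply_symm_apply] at h1
      rw [Equiv.Perm.inv_def, Equiv.symm_apply_eq]
      exact h1.symm
    · intro a _
      rfl
  have hτF : ∀ g : MvPolynomial (Fin m) ℚ, τ (F g) = MulOpposite.op (F g) := by
    intro g
    induction g using MvPolynomial.induction_on with
    | C a =>
      rw [← algebraMap_eq, AlgHom.commutes, AlgHom.commutes]
      rfl
    | add p q hp hq => rw [map_add, map_add, hp, hq, MulOpposite.op_add]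
    | mul_X p i hp =>
      rw [map_mul, map_mul, hp, hF, hτJ, ← MulOpposite.op_mul]
      congr 1
      rw [← hF, ← map_mul, ← map_mul, mul_comm]
  have h2 : pE m * F f * pE m =
      (Fintype.card {a : Perm (Fin m × Bool) // wr a} : ℚ) • (pE m * F f) := by
    have := congrArg τ h1
    rw [map_mul, map_smul, map_mul, hτE, hτF, ← MulOpposite.op_mul, ← MulOpposite.op_mul,
      ← MulOpposite.op_smul] at this
    exact MulOpposite.op_injective this
  have hcard : (Fintype.card {a : Perm (Fin m × Bool) // wr a} : ℚ) ≠ 0 := by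
    have : 0 < Fintype.card {a : Perm (Fin m × Bool) // wr a} :=
      Fintype.card_pos_iff.2 ⟨⟨1, fun i => rfl⟩⟩
    exact_mod_cast this.ne'
  have h3 : (Fintype.card {a : Perm (Fin m × Bool) // wr a} : ℚ) • (F f * pE m) =
      (Fintype.card {a : Perm (Fin m × Bool) // wr a} : ℚ) • (pE m * F f) := by
    rw [← h1, ← h2, mul_assoc]
  exact (smul_right_injective _ hcard) h3

/-- the row reading order -/
theorem p_RowR {m k : ℕ} (T : Fil m k) :
    RowR (fun x : Fin m × Bool => T.row x.1) (fun x => 2 * T.dom x.1 + x.2.toNat) rk0 := by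
  have hb : ∀ b : Bool, b.toNat ≤ 1 := Bool.toNat_le
  have hanti : ∀ r d, T.ν (r + d) ≤ T.ν r := by
    intro r d
    induction d with
    | zero => exact le_rfl
    | succ d ih =>
      refine le_trans ?_ ih
      have h := T.anti (r + d)
      rw [← add_assoc]
      split_ifs at h <;> omega
  have hbt : ∀ b b' : Bool, b.toNat = b'.toNat → b = b' := by
    intro b b' h
    cases b <;> cases b' <;> simp_all
  refine ⟨?_, ?_, ?_⟩
  · rintro ⟨i, b⟩ ⟨i', b'⟩ h1 h2
    simp only at h1 h2
    have e1 := hb b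
    have e2 := hb b'
    have h3 : T.dom i = T.dom i' := by omega
    have h4 : b = b' := hbt _ _ (by omega)
    have h5 : i = i' := by
      rcases lt_trichotomy i i' with h | h | h
      · have := (T.lex i i').1 h
        omega
      · exact h
      · have := (T.lex i' i).1 h
        omega
    rw [h4, h5]
  · rintro ⟨i, b⟩ r c h1 h2
    simp only at h1 h2
    have e1 := hb b
    have h3 : T.dom i < T.ν (T.row i) := (T.full (T.row i) (T.dom i)).1 ⟨i, rfl, rfl⟩
    obtain ⟨d, hd⟩ := Nat.exists_eq_add_of_le h1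
    have h4 := hanti r d
    rw [← hd] at h4
    obtain ⟨j, hj1, hj2⟩ := (T.full r (c / 2)).2 (by omega)
    refine ⟨(j, decide (c % 2 = 1)), hj1, ?_⟩
    simp only [hj2]
    rcases Nat.mod_two_eq_zero_or_one c with h | h
    · simp [h]
      omega
    · simp [h]
      omega
  · rintro ⟨i, b⟩ ⟨i', b'⟩
    unfold rk0
    simp only
    have e1 := hb b
    have e2 := hb b'
    rcases lt_trichotomy i i' with h | h | h
    · have h' := (T.lex i i').1 h
      have h'' : (i : ℕ) < i' := h
      constructor <;> intro _ <;> omega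
    · subst h
      constructor <;> intro _ <;> omega
    · have h' := (T.lex i' i).1 h
      have h'' : (i' : ℕ) < i := h
      constructor <;> intro _ <;> omega

/-- the number of cycles is invariant under conjugation -/
theorem p_cyc {α : Type} [Fintype α] [DecidableEq α] (g h : Perm α) : cyc (h * g * h⁻¹) = cyc g := by
  unfold cyc
  rw [Equiv.Perm.partition_eq_of_isConj.1 (isConj_iff.2 ⟨h, rfl⟩ : IsConj g (h * g * h⁻¹))]

/-- class sums are central -/
theorem p_csum {R α U : Type} [CommRing R] [Fintype α] [DecidableEq α] [AddCommGroup U]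
    [Module R U] (ρ : Representation R (Perm α) U) (j : ℕ) (h : Perm α) (u : U) :
    csum ρ j (ρ h u) = ρ h (csum ρ j u) := by
  unfold csum
  rw [LinearMap.sum_apply, LinearMap.sum_apply, map_sum]
  refine sum_nbij' (fun g => h⁻¹ * g * h) (fun g => h * g * h⁻¹) ?_ ?_ ?_ ?_ ?_
  · intro g hg
    rw [mem_filter] at hg ⊢
    refine ⟨mem_univ _, ?_⟩
    have := p_cyc g h⁻¹
    rw [inv_inv] at this
    rw [this]
    exact hg.2
  · intro g hg
    rw [mem_filter] at hg ⊢
    exact ⟨mem_univ _, by rw [p_cyc]; exact hg.2⟩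
  · intro g _
    group
  · intro g _
    group
  · intro g _
    rw [← Module.End.mul_apply, ← Module.End.mul_apply, ← map_mul, ← map_mul]
    congr 2
    group

open MvPolynomial in
/-- polynomials act on a common eigenvector by their values -/
theorem p_eig {σ U : Type} [AddCommGroup U] [Module ℚ U] (ev : MvPolynomial σ ℚ →ₐ[ℚ] Module.End ℚ U)
    (c : σ → ℚ) (u : U) (h : ∀ i, ev (X i) u = c i • u) (f : MvPolynomial σ ℚ) :
    ev f u = eval c f • u := by
  induction f using MvPolynomial.induction_on with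
  | C a => rw [← algebraMap_eq, AlgHom.commutes, Module.algebraMap_end_apply, algebraMap_eq, eval_C]
  | add p q hp hq => rw [map_add, LinearMap.add_apply, hp, hq, map_add, add_smul]
  | mul_X p i hp => rw [map_mul, Module.End.mul_apply, h, map_smul, hp, smul_smul, map_mul, eval_X,
      mul_comm]

open MvPolynomial in
/-- part PH -/
theorem t_PH (hEV : C_EV) (hCOM : C_COM) (hJUC : C_JUC) (hSYMM : C_SYMM) (hGAR : C_GAR)
    (hV0 : C_V0) : C_PH := by
  classical
  intro m k T ev hev
  have hG : ∀ x, JM (pol (Fin m × Bool)) rk0 x T.D0 =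
      (((2 * T.dom x.1 + x.2.toNat : ℕ) : ℤ) - T.row x.1) • T.D0 := fun x =>
    hGAR (Fin m × Bool) _ _ rk0 (p_RowR T) x
  obtain ⟨F, hF⟩ := hEV ℚ (pA m) (Fin m) (fun i => pJ (i, false)) (fun x y => pJ_comm hCOM _ _)
  have hw : T.w0 = ∑ a with wr a, pol (Fin m × Bool) a T.D0 := by
    unfold Fil.w0
    exact sum_congr (by ext; simp) fun _ _ => rfl
  constructor
  · intro f hf
    let π := (pol (Fin m × Bool)).asAlgebraHom
    have hπ : π.comp F = ev := by
      apply algHom_ext
      intro i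
      rw [AlgHom.comp_apply, hF, hev]
      show (pol (Fin m × Bool)).asAlgebraHom (pJ (i, false)) = _
      rw [pJ, map_sum]
      unfold JM
      exact sum_congr rfl fun y _ => Representation.asAlgebraHom_of _ _
    have hπE : ∀ u, π (pE m) u = ∑ a with wr a, pol (Fin m × Bool) a u := by
      intro u
      show (pol (Fin m × Bool)).asAlgebraHom (pE m) u = _
      rw [pE, map_sum, LinearMap.sum_apply]
      exact sum_congr rfl fun y _ => by rw [Representation.asAlgebraHom_of]
    have hD : ev f T.D0 = eval (fun i => ((T.x i : ℤ) : ℚ)) f • T.D0 := by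
      apply p_eig
      intro i
      rw [hev, hG (i, false), ← Int.cast_smul_eq_zsmul ℚ]
      congr 1
    calc ev f T.w0 = ev f (π (pE m) T.D0) := by rw [hπE, hw]
      _ = π (F f * pE m) T.D0 := by rw [← hπ]; simp [map_mul]
      _ = π (pE m * F f) T.D0 := by rw [pE_comm hEV hCOM hSYMM hV0 m F hF f hf]
      _ = π (pE m) (ev f T.D0) := by rw [← hπ]; simp [map_mul]
      _ = _ := by rw [hD, map_smul, hπE, hw]
  · intro j
    obtain ⟨ev', hev'⟩ := hEV ℚ (Module.End ℚ (MvPolynomial (Fin m × Bool) ℚ)) (Fin m × Bool)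
      (fun x => JM (pol (Fin m × Bool)) rk0 x)
      (fun x y => (hCOM ℚ (Fin m × Bool) _ (pol (Fin m × Bool)) rk0 rk0_inj).1 x y)
    have h1 : csum (pol (Fin m × Bool)) j T.D0 =
        (eval (fun x => ((T.x x.1 + x.2.toNat : ℤ) : ℚ)) (esymm (Fin m × Bool) ℚ j)) • T.D0 := by
      rw [hJUC ℚ (Fin m × Bool) _ (pol (Fin m × Bool)) rk0 ev' rk0_inj hev' j]
      apply p_eig
      intro x
      rw [hev', hG x, ← Int.cast_smul_eq_zsmul ℚ]
      congr 1
      unfold Fil.x
      push_cast
      ring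
    rw [hw, map_sum, smul_sum]
    refine sum_congr rfl fun a _ => ?_
    rw [p_csum, h1, map_smul]

end Pool.Agent.H4.TF
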